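import Pool.Agent.Y706.BI.Stm

/-!
# BI-HGT: a derivation with small loss
-/

set_option autoImplicit false

namespace Pool.Agent.Y523.BI

open Pool.Agent.Y706.BI Pool.Agent.W277.UB Pool.Agent.W277.UG Pool.Agent.W277.UH Finset
  Polynomial PlaceData

universe u v w

section

variable {k : Type v} {K : Type u} [Field k] [Field K] [Algebra k K] [DecidableEq K]

lemma GG_lower {Q : PlaceData.{w} k K} {v : Q.Pl} {d : ℕ} (hd : 2 ≤ d) {P : Finset K} {a : K → ℝ}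
    {ρ : ℝ} (L : LD Q v d P a ρ) {x y : K} (hx : x ∈ P) (hy : y ∈ P) (hxy : x ≠ y) :
    -(2 * (L.R : ℝ)) ≤ GG Q v a ρ x y := by
  rw [L.GG_eq hx hy hxy]
  have hdR : (2 : ℝ) ≤ d := by exact_mod_cast hd
  have hR0 : (0 : ℝ) ≤ L.R := Nat.cast_nonneg _
  have h1 := (L.hA x hx).2
  have h2 := (L.hA y hy).2
  have h3 : (L.R : ℝ) / ((d : ℝ) - 1) ≤ L.R := div_le_self hR0 (by linarith)
  have h4 : 0 ≤ (L.R : ℝ) / (d * ((d : ℝ) - 1)) := by
    apply div_nonneg hR0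
    apply mul_nonneg <;> linarith
  have h5 : (0 : ℝ) ≤ L.o x y := Nat.cast_nonneg _
  linarith

lemma ord_cross (Q : PlaceData.{w} k K) (v : Q.Pl) {x0 x1 x2 x : K} (h0 : x ≠ x0) (h2 : x ≠ x2)
    (h12 : x1 ≠ x2) (h10 : x1 ≠ x0) :
    Q.ord v (cross x0 x1 x2 x) = Q.ord v (x - x0) + Q.ord v (x1 - x2) -
      (Q.ord v (x - x2) + Q.ord v (x1 - x0)) := by
  have e0 := sub_ne_zero.mpr h0
  have e2 := sub_ne_zero.mpr h2
  have e12 := sub_ne_zero.mpr h12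
  have e10 := sub_ne_zero.mpr h10
  unfold cross
  rw [ord_div (mul_ne_zero e0 e12) (mul_ne_zero e2 e10), Q.ord_mul v _ _ e0 e12,
    Q.ord_mul v _ _ e2 e10]

lemma cross_ne {x0 x1 x2 x : K} (h0 : x ≠ x0) (h2 : x ≠ x2)
    (h12 : x1 ≠ x2) (h10 : x1 ≠ x0) : cross x0 x1 x2 x ≠ 0 := by
  unfold cross
  exact div_ne_zero (mul_ne_zero (sub_ne_zero.mpr h0) (sub_ne_zero.mpr h12))
    (mul_ne_zero (sub_ne_zero.mpr h2) (sub_ne_zero.mpr h10))

/-- the pole of a cross ratio outside the bad places -/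
lemma pole_cross_zero (Q : PlaceData.{w} k K) (v : Q.Pl) {P : Finset K} {x0 x1 x2 x : K}
    (hx0 : x0 ∈ P) (hx1 : x1 ∈ P) (hx2 : x2 ∈ P) (hx : x ∈ P) (h2 : x ≠ x2) (h12 : x1 ≠ x2)
    (h01 : x0 ≠ x1) (hv : ∀ x ∈ P, ∀ y ∈ P, x ≠ y → Q.ord v (x - y) = 0) :
    Q.pole v (cross x0 x1 x2 x) = 0 := by
  by_cases h0 : x = x0
  · subst h0
    have : cross x x1 x2 x = 0 := by unfold cross; simp
    rw [this, pole_zero]
  · rw [pole_of_ne (cross_ne h0 h2 h12 h01.symm), ord_cross Q v h0 h2 h12 h01.symm,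
      hv x hx x0 hx0 h0, hv x1 hx1 x2 hx2 h12, hv x hx x2 hx2 h2, hv x1 hx1 x0 hx0 h01.symm]
    simp

/-- the pole of a cross ratio -/
lemma pole_cross_le {Q : PlaceData.{w} k K} {v : Q.Pl} {d : ℕ} (hd : 2 ≤ d) {P : Finset K}
    {a : K → ℝ} {ρ : ℝ} (L : LD Q v d P a ρ) {x0 x1 x2 x : K}
    (hx0 : x0 ∈ P) (hx1 : x1 ∈ P) (hx2 : x2 ∈ P) (hx : x ∈ P) (h2 : x ≠ x2) (h12 : x1 ≠ x2)
    (h01 : x0 ≠ x1) :
    (Q.pole v (cross x0 x1 x2 x) : ℝ) ≤ GG Q v a ρ x x2 + GG Q v a ρ x1 x0 + 4 * L.R := by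
  have g2 := GG_lower hd L hx hx2 h2
  have g10 := GG_lower hd L hx1 hx0 h01.symm
  by_cases h0 : x = x0
  · have : cross x0 x1 x2 x = 0 := by unfold cross; simp [h0]
    rw [this, pole_zero, Int.cast_zero]
    linarith
  · have g0 := GG_lower hd L hx hx0 h0
    have g12 := GG_lower hd L hx1 hx2 h12
    rw [pole_of_ne (cross_ne h0 h2 h12 h01.symm), ord_cross Q v h0 h2 h12 h01.symm]
    push_cast
    apply max_le
    · linarith
    · unfold GG at *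
      linarith

lemma sum_pair (Q : PlaceData.{w} k K) (S : Finset Q.Pl) (P : Finset K) (a : Q.Pl → K → ℝ)
    (ρ : Q.Pl → ℝ) (hS1 : ∀ v, v ∉ S → ∀ x ∈ P, ∀ y ∈ P, x ≠ y → Q.ord v (x - y) = 0)
    (hwa : ∀ x ∈ P, ∑ v ∈ S, (Q.wt v : ℝ) * a v x = 0)
    (hwρ : ∑ v ∈ S, (Q.wt v : ℝ) * ρ v = 0) {x y : K} (hx : x ∈ P) (hy : y ∈ P) (hxy : x ≠ y) :
    ∑ v ∈ S, (Q.wt v : ℝ) * GG Q v (a v) (ρ v) x y = 0 := by
  have h1 := prod_zero Q S (x - y) (sub_ne_zero.mpr hxy) fun v hv => hS1 v hv x hx y hy hxy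
  have h2 : ∑ v ∈ S, (Q.wt v : ℝ) * (Q.ord v (x - y) : ℝ) = 0 := by exact_mod_cast h1
  have h3 : ∀ v, (Q.wt v : ℝ) * GG Q v (a v) (ρ v) x y = (Q.wt v : ℝ) * (Q.ord v (x - y) : ℝ) -
      (Q.wt v : ℝ) * a v x - (Q.wt v : ℝ) * a v y + (Q.wt v : ℝ) * ρ v := by
    intro v
    unfold GG
    ring
  simp_rw [h3]
  rw [Finset.sum_add_distrib, Finset.sum_sub_distrib, Finset.sum_sub_distrib, h2, hwa x hx,
    hwa y hy, hwρ]
  ring

/-- the total pole of a cross ratio -/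
lemma sum_pole_cross (Q : PlaceData.{w} k K) {d : ℕ} (hd : 2 ≤ d) (S : Finset Q.Pl)
    (P : Finset K) (a : Q.Pl → K → ℝ) (ρ : Q.Pl → ℝ) (L : ∀ v, LD Q v d P (a v) (ρ v))
    (hS1 : ∀ v, v ∉ S → ∀ x ∈ P, ∀ y ∈ P, x ≠ y → Q.ord v (x - y) = 0)
    (hwa : ∀ x ∈ P, ∑ v ∈ S, (Q.wt v : ℝ) * a v x = 0)
    (hwρ : ∑ v ∈ S, (Q.wt v : ℝ) * ρ v = 0) {x0 x1 x2 x : K}
    (hx0 : x0 ∈ P) (hx1 : x1 ∈ P) (hx2 : x2 ∈ P) (hx : x ∈ P) (h2 : x ≠ x2) (h12 : x1 ≠ x2)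
    (h01 : x0 ≠ x1) :
    ∑ v ∈ S, (Q.wt v : ℝ) * (Q.pole v (cross x0 x1 x2 x) : ℝ) ≤
      4 * ∑ v ∈ S, (Q.wt v : ℝ) * (L v).R := by
  have e1 := sum_pair Q S P a ρ hS1 hwa hwρ hx hx2 h2
  have e2 := sum_pair Q S P a ρ hS1 hwa hwρ hx1 hx0 h01.symm
  calc ∑ v ∈ S, (Q.wt v : ℝ) * (Q.pole v (cross x0 x1 x2 x) : ℝ)
      ≤ ∑ v ∈ S, (Q.wt v : ℝ) *
          (GG Q v (a v) (ρ v) x x2 + GG Q v (a v) (ρ v) x1 x0 + 4 * (L v).R) :=
        Finset.sum_le_sum fun v _ => mul_le_mul_of_nonneg_left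
          (pole_cross_le hd (L v) hx0 hx1 hx2 hx h2 h12 h01) (by exact_mod_cast Q.wt_nonneg v)
    _ = ∑ v ∈ S, (Q.wt v : ℝ) * GG Q v (a v) (ρ v) x x2 +
          ∑ v ∈ S, (Q.wt v : ℝ) * GG Q v (a v) (ρ v) x1 x0 +
          4 * ∑ v ∈ S, (Q.wt v : ℝ) * (L v).R := by
        rw [Finset.mul_sum, ← Finset.sum_add_distrib, ← Finset.sum_add_distrib]
        exact Finset.sum_congr rfl fun v _ => by ring
    _ = 4 * ∑ v ∈ S, (Q.wt v : ℝ) * (L v).R := by rw [e1, e2]; ring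

/-- the pole of an element of the span -/
lemma pole_span (Q : PlaceData.{w} k K) (v : Q.Pl) (T : Finset K) {x : K}
    (hx : x ∈ Submodule.span k (T : Set K)) : Q.pole v x ≤ ∑ t ∈ T, Q.pole v t := by
  have h0 : 0 ≤ ∑ t ∈ T, Q.pole v t := Finset.sum_nonneg fun t _ => pole_nonneg v t
  apply pole_le_of_G h0
  induction hx using Submodule.span_induction with
  | mem x hx =>
    apply G_of_pole_le
    exact Finset.single_le_sum (f := fun t => Q.pole v t) (fun t _ => pole_nonneg v t) hx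
  | zero => exact G_zero
  | add x y _ _ hx hy => exact G_add hx hy
  | smul c x _ hx => exact G_smul c hx

end

/-- **BI-HGT**: a derivation with small loss. -/
theorem t_HGT : S_GEN.{u, v} → S_HGT.{u, v, u} := by
  intro hGEN k K _ _ _ _ _ _ _ _ halg n hn P x0 x1 x2 hx0 hx1 hx2 h01 h02 h12 hadj hnc
  have : CharZero (RatFunc k) := charZero_of_injective_algebraMap
    (algebraMap k (RatFunc k)).injective
  obtain ⟨T, hTP, hTn, hTadj⟩ := hGEN (RatFunc k) K n hn _ hadj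
  obtain ⟨x3, hx3, h32, h3c⟩ := hnc
  set z0 := cross x0 x1 x2 x3 with hz0
  set T' := insert z0 T with hT'
  have hT'P : ∀ t ∈ T', ∃ x ∈ P, x ≠ x2 ∧ t = cross x0 x1 x2 x := by
    intro t ht
    rw [hT', Finset.mem_insert] at ht
    rcases ht with rfl | ht
    · exact ⟨x3, hx3, h32, rfl⟩
    · exact hTP ht
  have hT'n : T'.card ≤ n + 1 := (Finset.card_insert_le _ _).trans (by omega)
  have hT'adj : IntermediateField.adjoin (RatFunc k) (T' : Set K) = ⊤ := by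
    rw [eq_top_iff, ← hTadj]
    apply IntermediateField.adjoin.mono
    rw [hT']
    exact_mod_cast Finset.subset_insert z0 T
  obtain ⟨u, huT, hugen, huc⟩ := Pool.Agent.W277.UD.exists_gen (k := k) (F := RatFunc k) (E := K) (T' : Set K)
    hT'adj z0 (by rw [hT']; exact_mod_cast Finset.mem_insert_self z0 T) h3c
  obtain ⟨Q, hQ⟩ := Pool.Agent.W277.UD.exists_placeData_small k K halg u hugen huc
  refine ⟨Q, ?_⟩
  intro d hd S a ρ L hS1 hwa hwρ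
  set H : ℝ := ∑ v ∈ S, (Q.wt v : ℝ) * (L v).R with hH
  have hwt : ∀ v, (0 : ℝ) ≤ Q.wt v := fun v => by exact_mod_cast Q.wt_nonneg v
  have hH0 : 0 ≤ H := by
    rw [hH]
    exact Finset.sum_nonneg fun v _ => mul_nonneg (hwt v) (Nat.cast_nonneg _)
  have h1 := hQ S (by
    intro v hv
    apply le_antisymm _ (pole_nonneg v u)
    refine (pole_span Q v T' huT).trans (le_of_eq ?_)
    apply Finset.sum_eq_zero
    intro t ht
    obtain ⟨x, hx, hxx, rfl⟩ := hT'P t ht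
    exact pole_cross_zero Q v hx0 hx1 hx2 hx hxx h12 h01 (hS1 v hv))
  have h2 : (Q.lossT : ℝ) ≤ 2 * (Module.finrank (RatFunc k) K : ℝ) *
      ∑ v ∈ S, (Q.wt v : ℝ) * (Q.pole v u : ℝ) := by
    exact_mod_cast h1
  have h3 : ∑ v ∈ S, (Q.wt v : ℝ) * (Q.pole v u : ℝ) ≤ (n + 1) * (4 * H) := by
    calc ∑ v ∈ S, (Q.wt v : ℝ) * (Q.pole v u : ℝ)
        ≤ ∑ v ∈ S, (Q.wt v : ℝ) * ∑ t ∈ T', (Q.pole v t : ℝ) := by
          refine Finset.sum_le_sum fun v _ => mul_le_mul_of_nonneg_left ?_ (hwt v)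
          exact_mod_cast pole_span Q v T' huT
      _ = ∑ t ∈ T', ∑ v ∈ S, (Q.wt v : ℝ) * (Q.pole v t : ℝ) := by
          rw [Finset.sum_comm]
          exact Finset.sum_congr rfl fun v _ => by rw [Finset.mul_sum]
      _ ≤ ∑ t ∈ T', 4 * H := by
          refine Finset.sum_le_sum fun t ht => ?_
          obtain ⟨x, hx, hxx, rfl⟩ := hT'P t ht
          exact sum_pole_cross Q hd S P a ρ L hS1 hwa hwρ hx0 hx1 hx2 hx hxx h12 h01
      _ = (T'.card : ℝ) * (4 * H) := by rw [Finset.sum_const, nsmul_eq_mul]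
      _ ≤ (n + 1) * (4 * H) := by
          refine mul_le_mul_of_nonneg_right ?_ (by linarith)
          exact_mod_cast hT'n
  have h4 : (Module.finrank (RatFunc k) K : ℝ) ≤ n := by exact_mod_cast hn
  have hn0 : (0 : ℝ) ≤ n := Nat.cast_nonneg _
  calc (Q.lossT : ℝ) ≤ 2 * (Module.finrank (RatFunc k) K : ℝ) *
      ∑ v ∈ S, (Q.wt v : ℝ) * (Q.pole v u : ℝ) := h2
    _ ≤ 2 * (Module.finrank (RatFunc k) K : ℝ) * ((n + 1) * (4 * H)) :=
        mul_le_mul_of_nonneg_left h3 (by positivity)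
    _ ≤ 2 * n * ((n + 1) * (4 * H)) := by
        refine mul_le_mul_of_nonneg_right (by linarith) ?_
        have : 0 ≤ 4 * H := by linarith
        positivity
    _ ≤ 16 * ((n : ℝ) + 1) ^ 2 * H := by
        nlinarith [mul_nonneg hn0 hH0, mul_nonneg (mul_nonneg hn0 hn0) hH0]

end Pool.Agent.Y523.BI
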